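import Pool.Agent.H53.GM.Targets
import Pool.Agent.H53.GM.Basic

/-!
# Forbidden coloured patterns: one step of the iterated partite construction (STP)
-/

set_option autoImplicit false
set_option linter.unusedVariables false

namespace Pool.Agent.H98.GM

open Pool.Agent.H53.GM
open Classical

section copies

variable {Q 𝒦 W₀ WB R : Type} {K : Cls Q 𝒦}

/-- the disjoint union of copies of `C₀` over `B` -/
def cp (C₀ : Sy Q 𝒦 W₀) (β : R → W₀ → WB) : Sy WB 𝒦 (R × W₀) :=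
  ⟨fun x => β x.1 x.2, fun G κ => ∃ (r : R) (g : Finset W₀), C₀.gd g κ ∧
    ∀ x, x ∈ G ↔ x.1 = r ∧ x.2 ∈ g⟩

theorem isSys_cp {C₀ : Sy Q 𝒦 W₀} {B : Sy Q 𝒦 WB} {β : R → W₀ → WB} (hC : IsSys K C₀)
    (hβ : ∀ r, Hm C₀ B (β r)) : IsSys (K.ov B) (cp C₀ β) := by
  refine ⟨?_, ?_, ?_, ?_⟩
  · rintro G κ ⟨r, g, hg, hG⟩ x hx y hy hxy
    obtain ⟨hx1, hx2⟩ := (hG x).1 hx
    obtain ⟨hy1, hy2⟩ := (hG y).1 hy
    have h1 : β r x.2 = β r y.2 := by
      have : β x.1 x.2 = β y.1 y.2 := hxy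
      rwa [hx1, hy1] at this
    have h2 : C₀.pt x.2 = C₀.pt y.2 := by
      rw [← (hβ r g κ hg).2 _ hx2, ← (hβ r g κ hg).2 _ hy2, h1]
    exact Prod.ext (hx1.trans hy1.symm) (hC.tr g κ hg hx2 hy2 h2)
  · rintro G κ G' ⟨r, g, hg, hG⟩ hs
    have h1 := hC.dn g κ (g.filter fun x => (r, x) ∈ G') hg (Finset.filter_subset _ _)
    have h2 : (G'.image (cp C₀ β).pt).image B.pt =
        (g.filter fun x => (r, x) ∈ G').image C₀.pt := by
      ext q
      simp only [Finset.mem_image, Finset.mem_filter]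
      constructor
      · rintro ⟨_, ⟨x, hx, rfl⟩, rfl⟩
        obtain ⟨hx1, hx2⟩ := (hG x).1 (hs hx)
        refine ⟨x.2, ⟨hx2, ?_⟩, ?_⟩
        · rw [← hx1]
          exact hx
        · rw [← (hβ r g κ hg).2 _ hx2, ← hx1]
          rfl
      · rintro ⟨x, ⟨hx, hx'⟩, rfl⟩
        exact ⟨β r x, ⟨(r, x), hx', rfl⟩, (hβ r g κ hg).2 _ hx⟩
    refine ⟨r, g.filter fun x => (r, x) ∈ G', ?_, ?_⟩
    · change C₀.gd _ (K.rs ((G'.image (cp C₀ β).pt).image B.pt) κ)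
      rw [h2]
      exact h1
    · intro x
      rw [Finset.mem_filter]
      constructor
      · intro hx
        obtain ⟨hx1, hx2⟩ := (hG x).1 (hs hx)
        refine ⟨hx1, hx2, ?_⟩
        rw [← hx1]
        exact hx
      · rintro ⟨hx1, hx2, hx3⟩
        rw [← hx1] at hx3
        exact hx3
  · rintro G κ κ' ⟨r, g, hg, hG⟩ ⟨r', g', hg', hG'⟩
    have : g = g' := by
      ext x
      constructor
      · intro hx
        exact ((hG' (r, x)).1 ((hG (r, x)).2 ⟨rfl, hx⟩)).2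
      · intro hx
        exact ((hG (r', x)).1 ((hG' (r', x)).2 ⟨rfl, hx⟩)).2
    subst this
    exact hC.un g κ κ' hg hg'
  · rintro G κ ⟨r, g, hg, hG⟩
    have h1 : G.image (cp C₀ β).pt = g.image (β r) := by
      ext w
      simp only [Finset.mem_image]
      constructor
      · rintro ⟨x, hx, rfl⟩
        obtain ⟨hx1, hx2⟩ := (hG x).1 hx
        refine ⟨x.2, hx2, ?_⟩
        rw [← hx1]
        rfl
      · rintro ⟨x, hx, rfl⟩
        exact ⟨(r, x), (hG _).2 ⟨rfl, hx⟩, rfl⟩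
    change B.gd (G.image (cp C₀ β).pt) κ
    rw [h1]
    exact (hβ r g κ hg).1

theorem isSys_fg {P : Type} {C : Sy WB 𝒦 P} {B : Sy Q 𝒦 WB} (hB : IsSys K B)
    (hC : IsSys (K.ov B) C) : IsSys K (C.fg B) := by
  have key : ∀ G : Finset P, G.image (C.fg B).pt = (G.image C.pt).image B.pt := by
    intro G
    rw [Finset.image_image]
    rfl
  refine ⟨?_, ?_, ?_, ?_⟩
  · intro G κ hG x hx y hy hxy
    refine hC.tr G κ hG hx hy ?_
    refine hB.tr _ κ (hC.ok G κ hG) ?_ ?_ hxy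
    · exact Finset.mem_coe.2 (Finset.mem_image_of_mem _ hx)
    · exact Finset.mem_coe.2 (Finset.mem_image_of_mem _ hy)
  · intro G κ G' hG hs
    rw [key]
    exact hC.dn G κ G' hG hs
  · exact hC.un
  · intro G κ hG
    rw [key]
    exact hB.ok _ κ (hC.ok G κ hG)

end copies

theorem pf_STP (hDSU : Pool.Agent.H53.GM.T_DSU) (hITR : Pool.Agent.H53.GM.T_ITR) :
    Pool.Agent.H53.GM.T_STP := by
  intro Q 𝒦 _ _ K N G hG W₀ Y WB _ _ _ C₀ κ₀ B m hC₀ hGC hκ₀ hB hLB hRam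
  rcases isEmpty_or_nonempty Y with hY | ⟨⟨y₀⟩⟩
  · exact ⟨W₀, inferInstance, C₀, hC₀, fun U _ => Axs.res hG C₀ _ hGC, fun χ =>
      (hY.false (χ ∅)).elim⟩
  -- the copies
  let R : Type := {β : W₀ → WB // Hm C₀ B β}
  have hR : Nonempty R := by
    obtain ⟨φ, ν, h1, -⟩ := hRam (fun _ => y₀)
    exact ⟨⟨φ, h1⟩⟩
  have hRf : Finite R := inferInstanceAs (Finite {β : W₀ → WB // Hm C₀ B β})
  let C : Sy WB 𝒦 (R × W₀) := cp C₀ (fun r : R => r.1)
  have hC : IsSys (K.ov B) C := isSys_cp hC₀ (fun r => r.2)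
  have hCg : G (R × W₀) (C.fg B) := by
    refine hDSU Q 𝒦 K N G hG R W₀ (C.fg B) κ₀ (isSys_fg hB hC) ?_ ?_ ?_
    · obtain ⟨r⟩ := hR
      exact ⟨r, ∅, hκ₀, fun x => by simp⟩
    · rintro g κ ⟨r, g', -, h2⟩
      exact ⟨r, fun x hx => ((h2 x).1 hx).1⟩
    · intro r
      refine hG.g1 _ _ _ C₀ Prod.snd ?_ hGC
      rintro g κ ⟨⟨r', g', h1, h2⟩, h3⟩
      have h4 : g.image Prod.snd = g' := by
        ext x
        rw [Finset.mem_image]
        constructor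
        · rintro ⟨y, hy, rfl⟩
          exact ((h2 y).1 hy).2
        · intro hx
          exact ⟨(r', x), (h2 _).2 ⟨rfl, hx⟩, rfl⟩
      rw [h4]
      refine ⟨h1, fun x hx => ?_⟩
      obtain ⟨hx1, hx2⟩ := (h2 x).1 hx
      exact ((x.1.2 g' κ h1).2 x.2 hx2).symm
  have hLC : LG G (m + 1) (C.fg B) := fun U _ => Axs.res hG _ _ hCg
  -- all faces
  have : Fintype WB := Fintype.ofFinite WB
  have : Fintype 𝒦 := Fintype.ofFinite 𝒦
  let ls : List (Finset WB × 𝒦) :=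
    (Finset.univ.filter fun p : Finset WB × 𝒦 => B.gd p.1 p.2).toList
  have hls : ∀ p : Finset WB × 𝒦, p ∈ ls ↔ B.gd p.1 p.2 := by
    intro p
    simp [ls]
  obtain ⟨P', hP', C', hC', hLC', hcol⟩ := hITR Q 𝒦 K N G hG WB Y B m hB hLB ls
    (fun p hp => (hls p).1 hp) (R × W₀) C hC hLC
  refine ⟨P', hP', C'.fg B, isSys_fg hB hC', hLC', fun χ => ?_⟩
  obtain ⟨φ, hφ, hφc⟩ := hcol χ
  let χB : Finset WB → Y := fun α =>
    if h : ∃ (g : Finset (R × W₀)) (κ : 𝒦), C.gd g κ ∧ g.image C.pt = α then χ (h.choose.image φ)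
    else y₀
  have hχB : ∀ g κ, C.gd g κ → χB (g.image C.pt) = χ (g.image φ) := by
    intro g κ hg
    have hex : ∃ (g' : Finset (R × W₀)) (κ' : 𝒦), C.gd g' κ' ∧ g'.image C.pt = g.image C.pt :=
      ⟨g, κ, hg, rfl⟩
    have h1 : χB (g.image C.pt) = χ (hex.choose.image φ) := dif_pos hex
    rw [h1]
    obtain ⟨κ', h2, h3⟩ := hex.choose_spec
    have h4 : B.gd (g.image C.pt) κ' := by
      have := hC.ok _ κ' h2
      rw [h3] at this
      exact this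
    have h5 : κ' = κ := hB.un _ _ _ h4 (hC.ok g κ hg)
    subst h5
    exact hφc (g.image C.pt, κ') ((hls _).2 h4) _ _ h2 hg h3 rfl
  obtain ⟨β, ν, hβ, hν⟩ := hRam χB
  let r : R := ⟨β, hβ⟩
  -- the guards of the copy
  have hgd : ∀ g κ, C₀.gd g κ → ∃ g' : Finset (R × W₀), C.gd g' κ ∧
      g'.image C.pt = g.image β ∧ g'.image φ = g.image (fun x => φ (r, x)) ∧
      ∀ x, x ∈ g' ↔ x.1 = r ∧ x.2 ∈ g := by
    intro g κ hg
    have hmem : ∀ x : R × W₀, x ∈ g.image (fun x => (r, x)) ↔ x.1 = r ∧ x.2 ∈ g := by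
      intro x
      rw [Finset.mem_image]
      constructor
      · rintro ⟨y, hy, rfl⟩
        exact ⟨rfl, hy⟩
      · rintro ⟨h1, h2⟩
        exact ⟨x.2, h2, Prod.ext h1.symm rfl⟩
    refine ⟨g.image (fun x => (r, x)), ⟨r, g, hg, hmem⟩, ?_, ?_, hmem⟩
    · rw [Finset.image_image]
      rfl
    · rw [Finset.image_image]
      rfl
  refine ⟨fun x => φ (r, x), ν, ?_, ?_⟩
  · intro g κ hg
    obtain ⟨g', h1, h2, h3, h4⟩ := hgd g κ hg
    obtain ⟨h5, h6⟩ := hφ g' κ h1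
    refine ⟨?_, fun x hx => ?_⟩
    · rw [← h3]
      exact h5
    · have h7 := h6 (r, x) ((h4 _).2 ⟨rfl, hx⟩)
      change B.pt (C'.pt (φ (r, x))) = C₀.pt x
      rw [h7]
      exact (hβ g κ hg).2 x hx
  · intro g κ hg
    obtain ⟨g', h1, h2, h3, h4⟩ := hgd g κ hg
    rw [← h3, ← hχB g' κ h1, h2]
    exact hν g κ hg

end Pool.Agent.H98.GM
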